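import Pool.Agent.H90.SRC.Targets

/-!
# The recursion on segments (MP_81fcf0_co), row RWD
-/

set_option autoImplicit false

open Finset
open Pool.Agent.H66.SLP

namespace Pool.Agent.H86.SRC
open Pool.Agent.H90.SRC

theorem wt_empty (w : ℕ → ℝ) (a b : ℕ) (h : b ≤ a) : wt w a b = 0 := by
  unfold wt
  rw [Finset.Ico_eq_empty (not_lt.2 h), Finset.sum_empty]

theorem pf_RWD (hRW1 : T_RW1) (hRW2 : T_RW2) : T_RWD := by
  intro Y u p α β Q T θ ι _ _ z s e w c hp hT hQ hF hw hcov hwt hmono hc0 hcT hlp hθ
  obtain ⟨j, hj, hR⟩ := hRW1 Y u p α β Q T θ ι z s e w c hp hT hF hw hcov hwt hmono hc0 hcT hlp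
  have hQR : (1 : ℝ) ≤ Q := by exact_mod_cast hQ
  have hab : c j < c (j + 1) := by
    by_contra hcon
    push Not at hcon
    have h0 : ∑ i, (wt w (s i) (e i) - p (z i)) *
        (wt w (max (s i) (c j)) (min (e i) (c (j + 1))) / wt w (s i) (e i)) = 0 := by
      refine Finset.sum_eq_zero fun i _ => ?_
      rw [wt_empty w _ _ ((min_le_right _ _).trans (hcon.trans (le_max_right _ _))), zero_div,
        mul_zero]
    rw [h0] at hR
    have h1 : 0 < (Q : ℝ) * (wt w α β - θ) := mul_pos (by linarith) (by linarith)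
    linarith
  refine ⟨j, hj, hab, ?_⟩
  have hαa : α ≤ c j := by
    rw [← hc0]
    exact hmono (Nat.zero_le j)
  have hbβ : c (j + 1) ≤ β := by
    rw [← hcT]
    exact hmono hj
  have h2 := hRW2 Y u p α β (c j) (c (j + 1)) Q ι z s e w hp hF hw hcov hwt hαa hab hbβ
  refine ⟨{i : ι // s i < c (j + 1) ∧ c j < e i}, inferInstance, inferInstance,
    fun i => z i.1, fun i => max (s i.1) (c j), fun i => min (e i.1) (c (j + 1)), ?_, ?_, ?_⟩
  · exact
      { lo := fun i => le_max_right _ _
        lt := fun i => max_lt (lt_min (hF.lt i.1) i.2.1) (lt_min i.2.2 hab)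
        hi := fun i => min_le_right _ _
        sep := by
          intro i k hik hz
          rcases hF.sep i.1 k.1 (fun h => hik (Subtype.ext h)) hz with h | h
          · exact Or.inl ((min_le_left _ _).trans (h.trans (le_max_left _ _)))
          · exact Or.inr ((min_le_left _ _).trans (h.trans (le_max_left _ _)))
        av := fun i k hk1 hk2 => hF.av i.1 k ((le_max_left _ _).trans hk1)
          (hk2.trans_le (min_le_left _ _)) }
  · intro x hx1 hx2
    rw [← hcov x (hαa.trans hx1) (hx2.trans_le hbβ)]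
    unfold cov
    have h3 : (univ.filter fun i => s i ≤ x ∧ x < e i) ⊆
        ((univ.filter fun i : {i : ι // s i < c (j + 1) ∧ c j < e i} =>
          max (s i.1) (c j) ≤ x ∧ x < min (e i.1) (c (j + 1))).image fun i => i.1) := by
      intro i hi
      rw [Finset.mem_filter] at hi
      rw [Finset.mem_image]
      refine ⟨⟨i, lt_of_le_of_lt hi.2.1 hx2, lt_of_le_of_lt hx1 hi.2.2⟩, ?_, rfl⟩
      rw [Finset.mem_filter]
      exact ⟨Finset.mem_univ _, max_le hi.2.1 hx1, lt_min hi.2.2 hx2⟩
    exact (Finset.card_le_card h3).trans Finset.card_image_le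
  · have h3 : ∑ i : {i : ι // s i < c (j + 1) ∧ c j < e i}, p (z i.1) =
        ∑ i, (if s i < c (j + 1) ∧ c j < e i then p (z i) else 0) := by
      rw [← Finset.sum_filter, Finset.sum_subtype (univ.filter fun i => s i < c (j + 1) ∧ c j < e i)
        (p := fun i => s i < c (j + 1) ∧ c j < e i) (by
          intro i
          rw [Finset.mem_filter]
          exact ⟨fun h => h.2, fun h => ⟨Finset.mem_univ _, h⟩⟩) (fun i => p (z i))]
    rw [h3]
    refine h2.trans ?_
    linarith

end Pool.Agent.H86.SRC
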