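import Pool.Agent.H90.SRC.Targets
import Pool.Agent.H66.SLP.All

/-!
# The recursion on segments (MP_81fcf0_co), row SEG
-/

set_option autoImplicit false

open Finset
open Pool.Agent.H66.SLP

namespace Pool.Agent.H86.SRC
open Pool.Agent.H90.SRC

theorem pf_SEG : T_SEG := by
  intro Y u p α β a b Q ι _ _ z s e w hp hF hw hcov hwt hQ hαa hab hbβ
  obtain ⟨S, h1, h2, -, h3, h4⟩ := Pool.Agent.H66.SLP.real Y u p hp ι z s e w a b Q hQ hab hw
    hF.lt hF.sep hF.av (fun x hx1 hx2 => hcov x (hαa.trans hx1) (hx2.trans_le hbβ)) hwt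
  exact ⟨S, ⟨h3, h4⟩, h1, h2⟩

end Pool.Agent.H86.SRC
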